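import Mathlib

/-! Orbits of the groups of maps `x ↦ z (x - c) + c + h`, `z ^ D = 1`, `h ∈ H`, on a finite field. -/

namespace Pool.Agent.X135.AG

open Finset

variable {F : Type*} [Field F] [Fintype F] [DecidableEq F]

/-- The `d`-th roots of unity. -/
def U (F : Type*) [Field F] [Fintype F] [DecidableEq F] (d : ℕ) : Finset F :=
  univ.filter fun z => z ^ d = 1

lemma two_le_card (F : Type*) [Field F] [Fintype F] : 2 ≤ Fintype.card F :=
  Fintype.one_lt_card

lemma exists_prim {d : ℕ} (hd : d ∣ Fintype.card F - 1) : ∃ z : F, IsPrimitiveRoot z d := by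
  obtain ⟨g, hg⟩ := IsCyclic.exists_generator (α := Fˣ)
  have ho : orderOf g = Fintype.card F - 1 := by
    rw [orderOf_eq_card_of_forall_mem_zpowers hg, Nat.card_eq_fintype_card, Fintype.card_units]
  have h1 : IsPrimitiveRoot g (Fintype.card F - 1) := by
    rw [← ho]; exact IsPrimitiveRoot.orderOf g
  obtain ⟨e, he⟩ := hd
  have hpos : 0 < Fintype.card F - 1 := by have := two_le_card F; omega
  have h2 : IsPrimitiveRoot (g ^ e) d := h1.pow hpos (by rw [he, mul_comm])
  exact ⟨((g ^ e : Fˣ) : F), IsPrimitiveRoot.coe_units_iff.2 h2⟩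

lemma pos_of_dvd {d : ℕ} (hd : d ∣ Fintype.card F - 1) : 0 < d := by
  have := two_le_card F
  exact Nat.pos_of_dvd_of_pos hd (by omega)

lemma card_U {d : ℕ} (hd : d ∣ Fintype.card F - 1) : (U F d).card = d := by
  obtain ⟨z, hz⟩ := exists_prim hd
  have h1 := hz.card_nthRootsFinset
  have hp := pos_of_dvd hd
  have h2 : U F d = Polynomial.nthRootsFinset d (1 : F) := by
    ext x
    rw [Polynomial.mem_nthRootsFinset hp]
    simp [U]
  rw [h2, h1]

/-- The pair (`D`, `H`) is admissible. -/
structure Ok (D : ℕ) (H : AddSubgroup F) : Prop where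
  dvd : D ∣ Fintype.card F - 1
  stab : ∀ z : F, z ^ D = 1 → ∀ h ∈ H, z * h ∈ H

/-- `x` and `y` are in the same orbit. -/
def rel (D : ℕ) (H : AddSubgroup F) (c x y : F) : Prop :=
  ∃ z : F, z ^ D = 1 ∧ y - c - z * (x - c) ∈ H

variable {D : ℕ} {H : AddSubgroup F} {c : F}

lemma Ok.pos (h : Ok D H) : 0 < D := pos_of_dvd h.dvd

lemma Ok.ne_zero (h : Ok D H) {z : F} (hz : z ^ D = 1) : z ≠ 0 := by
  rintro rfl
  rw [zero_pow h.pos.ne'] at hz
  exact zero_ne_one hz

lemma rel_refl (x : F) : rel D H c x x := ⟨1, one_pow _, by simp⟩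

lemma Ok.symm (h : Ok D H) {x y : F} (hxy : rel D H c x y) : rel D H c y x := by
  obtain ⟨z, hz, hm⟩ := hxy
  have h0 := h.ne_zero hz
  refine ⟨z⁻¹, by rw [inv_pow, hz, inv_one], ?_⟩
  have h1 := h.stab z⁻¹ (by rw [inv_pow, hz, inv_one]) _ hm
  have h2 : x - c - z⁻¹ * (y - c) = -(z⁻¹ * (y - c - z * (x - c))) := by
    field_simp
    ring
  rw [h2]
  exact H.neg_mem h1

lemma Ok.trans (h : Ok D H) {x y w : F} (hxy : rel D H c x y) (hyw : rel D H c y w) :
    rel D H c x w := by
  obtain ⟨z, hz, hm⟩ := hxy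
  obtain ⟨t, ht, hn⟩ := hyw
  refine ⟨t * z, by rw [mul_pow, hz, ht, one_mul], ?_⟩
  have h1 := H.add_mem hn (h.stab t ht _ hm)
  have h2 : w - c - t * z * (x - c) = w - c - t * (y - c) + t * (y - c - z * (x - c)) := by ring
  rw [h2]
  exact h1

/-- The orbit relation as a setoid. -/
def Ok.setoid (h : Ok D H) (c : F) : Setoid F where
  r := rel D H c
  iseqv := ⟨fun x => rel_refl x, fun h1 => h.symm h1, fun h1 h2 => h.trans h1 h2⟩

/-- A chosen representative of the orbit of `x`. -/
noncomputable def Ok.rep (h : Ok D H) (c x : F) : F :=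
  (Quotient.mk (h.setoid c) x).out

lemma Ok.rel_rep (h : Ok D H) (c x : F) : rel D H c x (h.rep c x) := by
  have h1 : (h.setoid c) (Quotient.mk (h.setoid c) x).out x := Quotient.mk_out (s := h.setoid c) x
  exact h.symm h1

lemma Ok.rep_eq (h : Ok D H) {x y : F} (hxy : rel D H c x y) : h.rep c x = h.rep c y := by
  have h1 : Quotient.mk (h.setoid c) x = Quotient.mk (h.setoid c) y := Quotient.sound hxy
  unfold Ok.rep
  rw [h1]

lemma Ok.rel_of_rep_eq (h : Ok D H) {x y : F} (hxy : h.rep c x = h.rep c y) : rel D H c x y := by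
  have h1 := h.rel_rep c x
  have h2 := h.rel_rep c y
  rw [hxy] at h1
  exact h.trans h1 (h.symm h2)

lemma Ok.rep_rep (h : Ok D H) (x : F) : h.rep c (h.rep c x) = h.rep c x :=
  (h.rep_eq (h.rel_rep c x)).symm

/-- A nonzero difference of roots of unity can be cancelled. -/
lemma Ok.cancel (h : Ok D H) {z w : F} (hz : z ^ D = 1) (hw : w ^ D = 1) (hne : z ≠ w) {x : F}
    (hx : (z - w) * x ∈ H) : x ∈ H := by
  have h1 : ∀ y ∈ H, (z - w) * y ∈ H := by
    intro y hy
    rw [sub_mul]
    exact H.sub_mem (h.stab z hz y hy) (h.stab w hw y hy)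
  have h2 : ∀ n : ℕ, ∀ y ∈ H, (z - w) ^ n * y ∈ H := by
    intro n
    induction n with
    | zero => intro y hy; simpa using hy
    | succ n ih =>
      intro y hy
      rw [pow_succ, mul_assoc]
      exact ih _ (h1 y hy)
  have h3 := h2 (Fintype.card F - 2) _ hx
  have h4 : (z - w) ^ (Fintype.card F - 2) * ((z - w) * x) = x := by
    rw [← mul_assoc, ← pow_succ]
    have h5 : Fintype.card F - 2 + 1 = Fintype.card F - 1 := by
      have := two_le_card F; omega
    rw [h5, FiniteField.pow_card_sub_one_eq_one _ (sub_ne_zero.2 hne), one_mul]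
  rwa [h4] at h3

open Classical in
/-- The orbit of `x`. -/
noncomputable def cls (D : ℕ) (H : AddSubgroup F) (c x : F) : Finset F :=
  univ.filter fun y => rel D H c x y

lemma mem_cls {x y : F} : y ∈ cls D H c x ↔ rel D H c x y := by
  simp [cls]

open Classical in
/-- The exceptional orbit. -/
noncomputable def E (D : ℕ) (H : AddSubgroup F) (c : F) : Finset F :=
  if D = 1 then ∅ else univ.filter fun x => x - c ∈ H

lemma mem_E {x : F} : x ∈ E D H c ↔ D ≠ 1 ∧ x - c ∈ H := by
  unfold E
  split_ifs with h <;> simp [h]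

lemma Ok.card_cls (h : Ok D H) {x : F} (hx : x ∉ E D H c) :
    (cls D H c x).card = D * Nat.card H := by
  classical
  have h1 : (cls D H c x) = ((U F D) ×ˢ (univ : Finset H)).image
      (fun p => c + p.1 * (x - c) + (p.2 : F)) := by
    ext y
    rw [mem_cls, mem_image]
    constructor
    · rintro ⟨z, hz, hm⟩
      refine ⟨(z, ⟨_, hm⟩), by simp [U, hz], ?_⟩
      simp only
      ring
    · rintro ⟨⟨z, t⟩, hzt, rfl⟩
      refine ⟨z, ?_, ?_⟩
      · simpa [U] using hzt
      · have : c + z * (x - c) + (t : F) - c - z * (x - c) = t := by ring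
        rw [show (c + (z, t).1 * (x - c) + ((z, t).2 : F)) - c - z * (x - c) = (t : F) by
          simp only; ring]
        exact t.2
  rw [h1, card_image_of_injOn, card_product, card_U h.dvd, card_univ, Nat.card_eq_fintype_card]
  rintro ⟨z, t⟩ hzt ⟨w, s⟩ hws heq
  have hz : z ^ D = 1 := by simpa [U] using hzt
  have hw : w ^ D = 1 := by simpa [U] using hws
  simp only at heq
  have h2 : (z - w) * (x - c) = (s : F) - t := by linear_combination heq
  by_cases hne : z = w
  · subst hne
    have h3 : (t : F) = s := by linear_combination heq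
    rw [Prod.mk.injEq]
    exact ⟨rfl, Subtype.ext h3⟩
  · exfalso
    have h3 : (z - w) * (x - c) ∈ H := by rw [h2]; exact H.sub_mem s.2 t.2
    have h4 := h.cancel hz hw hne h3
    apply hx
    rw [mem_E]
    refine ⟨?_, h4⟩
    rintro rfl
    rw [pow_one] at hz hw
    exact hne (hz.trans hw.symm)

lemma Ok.card_E (hD : D ≠ 1) : (E D H c).card = Nat.card H := by
  classical
  have h1 : E D H c = (univ : Finset H).image (fun t : H => c + (t : F)) := by
    ext y
    rw [mem_E, mem_image]
    constructor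
    · rintro ⟨-, hy⟩
      exact ⟨⟨_, hy⟩, mem_univ _, by simp⟩
    · rintro ⟨t, -, rfl⟩
      exact ⟨hD, by simp⟩
  rw [h1, card_image_of_injective, card_univ, Nat.card_eq_fintype_card]
  intro s t hst
  simp only [add_right_inj] at hst
  exact Subtype.ext hst

lemma Ok.mem_E_of_rel (h : Ok D H) {x y : F} (hxy : rel D H c x y) (hx : x ∈ E D H c) :
    y ∈ E D H c := by
  obtain ⟨z, hz, hm⟩ := hxy
  rw [mem_E] at hx ⊢
  refine ⟨hx.1, ?_⟩
  have h1 := H.add_mem hm (h.stab z hz _ hx.2)
  rwa [sub_add_cancel] at h1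

lemma rel_of_mem_E {x y : F} (hx : x ∈ E D H c) (hy : y ∈ E D H c) : rel D H c x y := by
  rw [mem_E] at hx hy
  refine ⟨1, one_pow _, ?_⟩
  rw [one_mul]
  exact H.sub_mem hy.2 hx.2

/-- `B` is a union of orbits. -/
def Sat (D : ℕ) (H : AddSubgroup F) (c : F) (B : Finset F) : Prop :=
  ∀ x y, rel D H c x y → x ∈ B → y ∈ B

lemma Ok.sat_iff (h : Ok D H) {B : Finset F} (hB : Sat D H c B) {x y : F}
    (hxy : rel D H c x y) : x ∈ B ↔ y ∈ B :=
  ⟨fun hx => hB x y hxy hx, fun hy => hB y x (h.symm hxy) hy⟩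

lemma Ok.card_pos (H : AddSubgroup F) : 0 < Nat.card H := Nat.card_pos

/-- The part of a union of orbits in the exceptional orbit. -/
lemma inter_E {B : Finset F} (hB : Sat D H c B) :
    B ∩ E D H c = ∅ ∨ B ∩ E D H c = E D H c := by
  by_cases h1 : (B ∩ E D H c).Nonempty
  · right
    obtain ⟨x, hx⟩ := h1
    rw [mem_inter] at hx
    apply inter_eq_right.2
    intro y hy
    exact hB x y (rel_of_mem_E hx.2 hy) hx.1
  · left
    exact not_nonempty_iff_eq_empty.1 h1

/-- The number of orbits outside of the exceptional one. -/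
lemma Ok.card_sdiff (h : Ok D H) {B : Finset F} (hB : Sat D H c B) :
    (B \ E D H c).card = ((B \ E D H c).image (h.rep c)).card * (D * Nat.card H) := by
  classical
  rw [card_eq_sum_card_image (h.rep c) (B \ E D H c)]
  rw [sum_const_nat (m := D * Nat.card H)]
  intro r hr
  rw [mem_image] at hr
  obtain ⟨x, hx, rfl⟩ := hr
  have hx2 := mem_sdiff.1 hx
  have h1 : (B \ E D H c).filter (fun y => h.rep c y = h.rep c x) = cls D H c x := by
    ext y
    rw [mem_filter, mem_cls, mem_sdiff]
    constructor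
    · rintro ⟨-, hy⟩
      exact h.rel_of_rep_eq hy.symm
    · intro hy
      refine ⟨⟨hB x y hy hx2.1, fun hE => hx2.2 ?_⟩, (h.rep_eq hy).symm⟩
      exact h.mem_E_of_rel (h.symm hy) hE
  rw [h1, h.card_cls hx2.2]

lemma Ok.card_eq (h : Ok D H) {B : Finset F} (hB : Sat D H c B) :
    B.card = (B ∩ E D H c).card +
      ((B \ E D H c).image (h.rep c)).card * (D * Nat.card H) := by
  classical
  rw [← h.card_sdiff hB, add_comm, card_sdiff_add_card_inter]

/-- The size of a union of orbits determines the exceptional part and the number of orbits. -/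
lemma Ok.unique (h : Ok D H) {A B : Finset F} (hA : Sat D H c A) (hB : Sat D H c B)
    (hAB : A.card = B.card) :
    A ∩ E D H c = B ∩ E D H c ∧ ((A \ E D H c).image (h.rep c)).card =
      ((B \ E D H c).image (h.rep c)).card := by
  classical
  have h1 := h.card_eq hA
  have h2 := h.card_eq hB
  have hpos : 0 < Nat.card H := Ok.card_pos H
  have hDp := h.pos
  by_cases hD : D = 1
  · have hE : E D H c = ∅ := by simp [E, hD]
    rw [hE] at h1 h2 ⊢
    rw [inter_empty, card_empty, zero_add] at h1 h2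
    refine ⟨by simp, ?_⟩
    have h3 : 0 < D * Nat.card H := Nat.mul_pos hDp hpos
    exact Nat.eq_of_mul_eq_mul_right h3 (by omega)
  · have hE := Ok.card_E (H := H) (c := c) hD
    have hD2 : 2 ≤ D := by omega
    set s := Nat.card H with hs
    set a := ((A \ E D H c).image (h.rep c)).card
    set b := ((B \ E D H c).image (h.rep c)).card
    have h3 : s < D * s := by nlinarith
    rcases inter_E hA with hA1 | hA1 <;> rcases inter_E hB with hB1 | hB1
    · rw [hA1] at h1
      rw [hB1] at h2
      refine ⟨by rw [hA1, hB1], ?_⟩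
      rw [card_empty, zero_add] at h1 h2
      exact Nat.eq_of_mul_eq_mul_right (by omega) (show a * (D * s) = b * (D * s) by omega)
    · exfalso
      rw [hA1] at h1
      rw [hB1, hE] at h2
      rw [card_empty, zero_add] at h1
      have h4 : a * (D * s) = s + b * (D * s) := by omega
      rcases Nat.lt_or_ge b a with hab | hab
      · have : (b + 1) * (D * s) ≤ a * (D * s) := Nat.mul_le_mul_right _ hab
        nlinarith
      · have : a * (D * s) ≤ b * (D * s) := Nat.mul_le_mul_right _ hab
        omega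
    · exfalso
      rw [hA1, hE] at h1
      rw [hB1] at h2
      rw [card_empty, zero_add] at h2
      have h4 : b * (D * s) = s + a * (D * s) := by omega
      rcases Nat.lt_or_ge a b with hab | hab
      · have : (a + 1) * (D * s) ≤ b * (D * s) := Nat.mul_le_mul_right _ hab
        nlinarith
      · have : b * (D * s) ≤ a * (D * s) := Nat.mul_le_mul_right _ hab
        omega
    · rw [hA1, hE] at h1
      rw [hB1, hE] at h2
      refine ⟨by rw [hA1, hB1], ?_⟩
      exact Nat.eq_of_mul_eq_mul_right (by omega) (show a * (D * s) = b * (D * s) by omega)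

end Pool.Agent.X135.AG
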