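import Pool.Agent.X135.AG.A

/-! Comparing the numbers of unions of orbits for a group and for a larger group. -/

namespace Pool.Agent.X135.AG

open Finset

variable {F : Type*} [Field F] [Fintype F] [DecidableEq F]

open Classical in
/-- The unions of orbits with `k` elements. -/
noncomputable def fam (D : ℕ) (H : AddSubgroup F) (c : F) (k : ℕ) : Finset (Finset F) :=
  univ.filter fun B => Sat D H c B ∧ B.card = k

lemma mem_fam {D : ℕ} {H : AddSubgroup F} {c : F} {k : ℕ} {B : Finset F} :
    B ∈ fam D H c k ↔ Sat D H c B ∧ B.card = k := by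
  simp [fam]

/-- The square of the number of unions of `T`-orbits is at most the number of unions
of `S`-orbits. -/
lemma sq_le {d D : ℕ} {H H1 : AddSubgroup F} {a c : F} (hS : Ok d H) (hT : Ok D H1)
    (hle : ∀ x y, rel d H a x y → rel D H1 c x y)
    (hE : ∀ x, x ∈ E d H a → x ∈ E D H1 c)
    (hlt : d * Nat.card H < D * Nat.card H1) (k : ℕ) :
    (fam D H1 c k).card ^ 2 ≤ (fam d H a k).card := by
  classical
  set P : Finset F := univ.filter fun x => x ∉ E D H1 c ∧ rel d H a (hT.rep c x) x with hP
  have memP : ∀ x, x ∈ P ↔ x ∉ E D H1 c ∧ rel d H a (hT.rep c x) x := by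
    intro x; simp [hP]
  have Psat : ∀ x y, rel d H a x y → x ∈ P → y ∈ P := by
    intro x y hxy hx
    rw [memP] at hx ⊢
    have h1 := hle x y hxy
    refine ⟨fun hy => hx.1 (hT.mem_E_of_rel (hT.symm h1) hy), ?_⟩
    rw [← hT.rep_eq h1]
    exact hS.trans hx.2 hxy
  have Psat' : ∀ x y, rel d H a x y → (x ∈ P ↔ y ∈ P) := fun x y hxy =>
    ⟨Psat x y hxy, Psat y x (hS.symm hxy)⟩
  -- the number of points of a union of T-orbits in P
  have cP : ∀ B : Finset F, Sat D H1 c B → (B ∩ P).card =
      ((B \ E D H1 c).image (hT.rep c)).card * (d * Nat.card H) := by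
    intro B hB
    have him : (B ∩ P).image (hT.rep c) = (B \ E D H1 c).image (hT.rep c) := by
      ext r
      simp only [mem_image, mem_inter, mem_sdiff]
      constructor
      · rintro ⟨x, ⟨hx, hxP⟩, rfl⟩
        exact ⟨x, ⟨hx, ((memP x).1 hxP).1⟩, rfl⟩
      · rintro ⟨x, ⟨hx, hxE⟩, rfl⟩
        have h1 := hT.rel_rep c x
        refine ⟨hT.rep c x, ⟨hB _ _ h1 hx, (memP _).2 ⟨?_, ?_⟩⟩, hT.rep_rep x⟩
        · exact fun h2 => hxE (hT.mem_E_of_rel (hT.symm h1) h2)
        · rw [hT.rep_rep]; exact rel_refl _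
    rw [← him, card_eq_sum_card_image (hT.rep c) (B ∩ P),
      sum_const_nat (m := d * Nat.card H)]
    intro r hr
    rw [mem_image] at hr
    obtain ⟨x, hx, rfl⟩ := hr
    have hx2 := mem_inter.1 hx
    have hx3 := (memP x).1 hx2.2
    have h1 : (B ∩ P).filter (fun y => hT.rep c y = hT.rep c x) =
        cls d H a (hT.rep c x) := by
      ext y
      rw [mem_filter, mem_cls, mem_inter]
      constructor
      · rintro ⟨⟨-, hy⟩, hyx⟩
        rw [← hyx]
        exact ((memP y).1 hy).2
      · intro hy
        have h2 := hle _ _ hy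
        have h3 := hT.trans (hT.rel_rep c x) h2
        have h4 := hT.rep_eq h3
        refine ⟨⟨hB _ _ h3 hx2.1, (memP y).2 ⟨fun h5 => hx3.1 ?_, ?_⟩⟩, h4.symm⟩
        · exact hT.mem_E_of_rel (hT.symm h3) h5
        · rw [← h4]; exact hy
    rw [h1, hS.card_cls]
    intro h2
    exact hx3.1 (hT.mem_E_of_rel (hT.symm (hT.rel_rep c x)) (hE _ h2))
  have key : ((fam D H1 c k) ×ˢ (fam D H1 c k)).card ≤ (fam d H a k).card := by
    apply card_le_card_of_injOn (fun p => (p.1 ∩ P) ∪ (p.2 \ P))
    · rintro ⟨A, B⟩ hAB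
      rw [mem_coe, mem_product, mem_fam, mem_fam] at hAB
      obtain ⟨⟨hA, hAk⟩, ⟨hB, hBk⟩⟩ := hAB
      simp only at hA hAk hB hBk ⊢
      rw [mem_coe, mem_fam]
      constructor
      · intro x y hxy hx
        rw [mem_union, mem_inter, mem_sdiff] at hx ⊢
        have h1 := hle _ _ hxy
        rcases hx with ⟨h2, h3⟩ | ⟨h2, h3⟩
        · left; exact ⟨hA _ _ h1 h2, Psat _ _ hxy h3⟩
        · right; exact ⟨hB _ _ h1 h2, fun h4 => h3 ((Psat' _ _ hxy).2 h4)⟩
      · have hdis : Disjoint (A ∩ P) (B \ P) := by
          rw [disjoint_left]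
          intro x hx hx2
          exact (mem_sdiff.1 hx2).2 (mem_inter.1 hx).2
        rw [card_union_of_disjoint hdis, cP A hA]
        have h1 := (hT.unique hA hB (hAk.trans hBk.symm)).2
        rw [h1, ← cP B hB, ← hBk, add_comm, card_sdiff_add_card_inter]
    · rintro ⟨A, B⟩ hAB ⟨A', B'⟩ hAB' heq
      rw [mem_coe, mem_product, mem_fam, mem_fam] at hAB hAB'
      obtain ⟨⟨hA, hAk⟩, ⟨hB, hBk⟩⟩ := hAB
      obtain ⟨⟨hA', hAk'⟩, ⟨hB', hBk'⟩⟩ := hAB'
      simp only at hA hAk hB hBk hA' hAk' hB' hBk' heq
      have e1 : ∀ x, x ∈ P → (x ∈ A ↔ x ∈ A') := by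
        intro x hx
        have h1 := congrArg (fun s => x ∈ s) heq
        simp only [mem_union, mem_inter, mem_sdiff, hx, not_true_eq_false, and_true, and_false,
          or_false, eq_iff_iff] at h1
        exact h1
      have e2 : ∀ x, x ∉ P → (x ∈ B ↔ x ∈ B') := by
        intro x hx
        have h1 := congrArg (fun s => x ∈ s) heq
        simp only [mem_union, mem_inter, mem_sdiff, hx, not_false_eq_true, and_true, and_false,
          false_or, eq_iff_iff] at h1
        exact h1
      have hA2 : A = A' := by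
        have h0 := (hT.unique hA hA' (hAk.trans hAk'.symm)).1
        ext x
        by_cases hx : x ∈ E D H1 c
        · have h1 := congrArg (fun s => x ∈ s) h0
          simp only [mem_inter, hx, and_true, eq_iff_iff] at h1
          exact h1
        · have h1 := hT.rel_rep c x
          have h2 : hT.rep c x ∈ P := by
            rw [memP]
            refine ⟨fun h3 => hx (hT.mem_E_of_rel (hT.symm h1) h3), ?_⟩
            rw [hT.rep_rep]; exact rel_refl _
          rw [hT.sat_iff hA h1, hT.sat_iff hA' h1]
          exact e1 _ h2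
      have hB2 : B = B' := by
        ext x
        by_cases hx : x ∈ E D H1 c
        · apply e2
          intro h1
          exact ((memP x).1 h1).1 hx
        · -- a point of the T-orbit outside of P
          have h1 : ∃ y, rel D H1 c x y ∧ y ∉ P := by
            by_contra hcon
            push Not at hcon
            have h2 : cls D H1 c x ⊆ cls d H a (hT.rep c x) := by
              intro y hy
              rw [mem_cls] at hy ⊢
              have h3 := ((memP y).1 (hcon y hy)).2
              rw [← hT.rep_eq hy] at h3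
              exact h3
            have h4 := card_le_card h2
            rw [hT.card_cls hx, hS.card_cls] at h4
            · omega
            · intro h5
              exact hx (hT.mem_E_of_rel (hT.symm (hT.rel_rep c x)) (hE _ h5))
          obtain ⟨y, hxy, hy⟩ := h1
          rw [hT.sat_iff hB hxy, hT.sat_iff hB' hxy]
          exact e2 y hy
      rw [hA2, hB2]
  rw [card_product] at key
  rw [sq]
  exact key

/-- Representatives of the orbits outside of the exceptional one. -/
noncomputable def Ok.reps {d : ℕ} {H : AddSubgroup F} (hS : Ok d H) (a : F) : Finset F :=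
  (univ \ E d H a).image (hS.rep a)

lemma sat_univ {d : ℕ} {H : AddSubgroup F} {a : F} : Sat d H a (univ : Finset F) :=
  fun _ _ _ _ => mem_univ _

/-- The number of orbits. -/
lemma Ok.card_reps {d : ℕ} {H : AddSubgroup F} (hS : Ok d H) (a : F) :
    Fintype.card F = (E d H a).card + (hS.reps a).card * (d * Nat.card H) := by
  have h1 := hS.card_eq (c := a) (B := univ) sat_univ
  rw [univ_inter, card_univ] at h1
  exact h1

/-- The lower bound for the number of unions of orbits. -/
lemma choose_le {d : ℕ} {H : AddSubgroup F} {a : F} (hS : Ok d H) (m : ℕ) (Q : Finset F)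
    (hQ : Q = ∅ ∨ Q = E d H a) {k : ℕ} (hk : k = Q.card + m * (d * Nat.card H)) :
    (hS.reps a).card.choose m ≤ (fam d H a k).card := by
  classical
  rw [← card_powersetCard]
  have hQE : Q ⊆ E d H a := by
    rcases hQ with h | h <;> rw [h]
    exact empty_subset _
  have hrep : ∀ x, x ∉ E d H a → hS.rep a x ∉ E d H a := by
    intro x hx h
    exact hx (hS.mem_E_of_rel (hS.symm (hS.rel_rep a x)) h)
  have hR : ∀ r ∈ hS.reps a, r ∉ E d H a ∧ hS.rep a r = r := by
    intro r hr
    unfold Ok.reps at hr
    rw [mem_image] at hr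
    obtain ⟨x, hx, rfl⟩ := hr
    exact ⟨hrep x (mem_sdiff.1 hx).2, hS.rep_rep x⟩
  apply card_le_card_of_injOn
    (fun Y => Q ∪ (univ.filter fun x => x ∉ E d H a ∧ hS.rep a x ∈ Y))
  · intro Y hY
    rw [mem_coe, mem_powersetCard] at hY
    rw [mem_coe, mem_fam]
    constructor
    · intro x y hxy hx
      rw [mem_union, mem_filter] at hx ⊢
      rcases hx with hx | ⟨-, hx, hx2⟩
      · left
        rcases hQ with h | h
        · rw [h] at hx; exact absurd hx (notMem_empty _)
        · rw [h] at hx ⊢
          exact hS.mem_E_of_rel hxy hx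
      · right
        refine ⟨mem_univ _, fun h => hx (hS.mem_E_of_rel (hS.symm hxy) h), ?_⟩
        rw [← hS.rep_eq hxy]; exact hx2
    · have hdis : Disjoint Q (univ.filter fun x => x ∉ E d H a ∧ hS.rep a x ∈ Y) := by
        rw [disjoint_left]
        intro x hx hx2
        exact (mem_filter.1 hx2).2.1 (hQE hx)
      rw [card_union_of_disjoint hdis, hk]
      congr 1
      rw [← hY.2]
      have hmaps : ∀ x ∈ (univ.filter fun x => x ∉ E d H a ∧ hS.rep a x ∈ Y),
          hS.rep a x ∈ Y := fun x hx => (mem_filter.1 hx).2.2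
      rw [card_eq_sum_card_fiberwise hmaps, sum_const_nat (m := d * Nat.card H)]
      intro r hr
      have hr2 := hR r (hY.1 hr)
      have h1 : (univ.filter fun x => x ∉ E d H a ∧ hS.rep a x ∈ Y).filter
          (fun x => hS.rep a x = r) = cls d H a r := by
        ext y
        rw [mem_filter, mem_filter, mem_cls]
        constructor
        · rintro ⟨⟨-, hy, hy2⟩, rfl⟩
          exact hS.symm (hS.rel_rep a y)
        · intro hy
          have h2 : hS.rep a y = r := by rw [← hS.rep_eq hy, hr2.2]
          refine ⟨⟨mem_univ _, fun h3 => hr2.1 (hS.mem_E_of_rel (hS.symm hy) h3), ?_⟩, h2⟩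
          rw [h2]; exact hr
      rw [h1, hS.card_cls hr2.1]
  · intro Y hY Z hZ heq
    rw [mem_coe, mem_powersetCard] at hY hZ
    simp only at heq
    have aux : ∀ Y : Finset F, Y ⊆ hS.reps a → ∀ r ∈ hS.reps a,
        (r ∈ Y ↔ r ∈ Q ∪ (univ.filter fun x => x ∉ E d H a ∧ hS.rep a x ∈ Y)) := by
      intro Y hY r hr
      have h1 := hR r hr
      rw [mem_union, mem_filter, h1.2]
      constructor
      · intro h2; right; exact ⟨mem_univ _, h1.1, h2⟩
      · rintro (h2 | ⟨-, -, h2⟩)
        · exact absurd (hQE h2) h1.1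
        · exact h2
    ext r
    constructor
    · intro hr
      have h1 := (aux Y hY.1 r (hY.1 hr)).1 hr
      rw [heq] at h1
      exact (aux Z hZ.1 r (hY.1 hr)).2 h1
    · intro hr
      have h1 := (aux Z hZ.1 r (hZ.1 hr)).1 hr
      rw [← heq] at h1
      exact (aux Y hY.1 r (hZ.1 hr)).2 h1

end Pool.Agent.X135.AG
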