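import Pool.Agent.X135.AG.B

/-! Sets whose stabilizer is too large. -/

namespace Pool.Agent.X135.AG

open Finset

variable {F : Type*} [Field F] [Fintype F] [DecidableEq F]

/-- The translations that preserve `B`. -/
def tr (B : Finset F) : AddSubgroup F where
  carrier := {h | ∀ x, x ∈ B ↔ x + h ∈ B}
  zero_mem' := by intro x; simp
  add_mem' := by
    intro g h hg hh x
    rw [hg x, hh (x + g), add_assoc]
  neg_mem' := by
    intro g hg x
    rw [hg (x + -g), neg_add_cancel_right]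

lemma mem_tr {B : Finset F} {h : F} : h ∈ tr B ↔ ∀ x, x ∈ B ↔ x + h ∈ B := Iff.rfl

lemma le_tr {d : ℕ} {H : AddSubgroup F} {a : F} (hS : Ok d H) {B : Finset F}
    (hB : Sat d H a B) : H ≤ tr B := by
  intro h hh x
  have h1 : rel d H a x (x + h) := ⟨1, one_pow _, by
    have : x + h - a - 1 * (x - a) = h := by ring
    rw [this]; exact hh⟩
  exact hS.sat_iff hB h1

lemma mul_iff {d : ℕ} {H : AddSubgroup F} (hS : Ok d H) {B : Finset F}
    (hB : Sat d H 0 B) {z : F} (hz : z ^ d = 1) (x : F) : x ∈ B ↔ z * x ∈ B := by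
  have h1 : rel d H 0 x (z * x) := ⟨z, hz, by simp⟩
  exact hS.sat_iff hB h1

lemma sat_of {D : ℕ} {H : AddSubgroup F} {c : F} {B : Finset F}
    (h1 : ∀ z : F, z ^ D = 1 → ∀ x ∈ B, z * (x - c) + c ∈ B) (h2 : H ≤ tr B) :
    Sat D H c B := by
  rintro x y ⟨z, hz, hm⟩ hx
  have h3 := h2 hm
  have h4 := (h3 (z * (x - c) + c)).1 (h1 z hz x hx)
  have h5 : z * (x - c) + c + (y - c - z * (x - c)) = y := by ring
  rwa [h5] at h4

/-- The subgroup generated by `H` and the multiples of `h` by roots of unity. -/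
def Hr (d : ℕ) (H : AddSubgroup F) (h : F) : AddSubgroup F :=
  AddSubgroup.closure ((H : Set F) ∪ {w | ∃ z : F, z ^ d = 1 ∧ w = z * h})

lemma le_Hr (d : ℕ) (H : AddSubgroup F) (h : F) : H ≤ Hr d H h := fun _ hx =>
  AddSubgroup.subset_closure (Or.inl hx)

lemma mem_Hr (d : ℕ) (H : AddSubgroup F) (h : F) : h ∈ Hr d H h :=
  AddSubgroup.subset_closure (Or.inr ⟨1, one_pow _, (one_mul _).symm⟩)

lemma ok_Hr {d : ℕ} {H : AddSubgroup F} (hS : Ok d H) (h : F) : Ok d (Hr d H h) := by
  refine ⟨hS.dvd, ?_⟩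
  intro z hz w hw
  unfold Hr at hw
  induction hw using AddSubgroup.closure_induction with
  | mem x hx =>
    rcases hx with hx | ⟨t, ht, rfl⟩
    · exact le_Hr d H h (hS.stab z hz x hx)
    · refine AddSubgroup.subset_closure (Or.inr ⟨z * t, by rw [mul_pow, hz, ht, one_mul], ?_⟩)
      ring
  | zero => rw [mul_zero]; exact AddSubgroup.zero_mem _
  | add x y _ _ hx hy => rw [mul_add]; exact AddSubgroup.add_mem _ hx hy
  | neg x _ hx => rw [mul_neg]; exact AddSubgroup.neg_mem _ hx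

lemma Hr_le_tr {d : ℕ} {H : AddSubgroup F} (hS : Ok d H) {B : Finset F}
    (hB : Sat d H 0 B) {h : F} (hh : h ∈ tr B) : Hr d H h ≤ tr B := by
  unfold Hr
  rw [AddSubgroup.closure_le]
  rintro w (hw | ⟨z, hz, rfl⟩)
  · exact le_tr hS hB hw
  · intro x
    have hz0 := hS.ne_zero hz
    have hzi : (z⁻¹) ^ d = 1 := by rw [inv_pow, hz, inv_one]
    rw [mul_iff hS hB hzi x, hh (z⁻¹ * x), mul_iff hS hB hz (z⁻¹ * x + h)]
    have : z * (z⁻¹ * x + h) = x + z * h := by field_simp
    rw [this]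

/-- A set with an additional translation. -/
lemma sat_Hr {d : ℕ} {H : AddSubgroup F} (hS : Ok d H) {B : Finset F}
    (hB : Sat d H 0 B) {h : F} (hh : h ∈ tr B) : Sat d (Hr d H h) 0 B := by
  apply sat_of _ (Hr_le_tr hS hB hh)
  intro z hz x hx
  rw [sub_zero, add_zero]
  exact (mul_iff hS hB hz x).1 hx

lemma card_lt_Hr {d : ℕ} {H : AddSubgroup F} {h : F} (hh : h ∉ H) :
    Nat.card H < Nat.card (Hr d H h) := by
  have h1 : (H : Set F) ⊂ (Hr d H h : Set F) := by
    refine ⟨le_Hr d H h, fun h2 => hh (h2 (mem_Hr d H h))⟩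
  have h2 := Set.ncard_lt_ncard h1 (Set.toFinite _)
  rwa [← Nat.card_coe_set_eq, ← Nat.card_coe_set_eq] at h2

/-- The multipliers that preserve `B - c`. -/
def mu (B : Finset F) (c : F) : Subgroup Fˣ where
  carrier := {z | ∀ x, x ∈ B ↔ (z : F) * (x - c) + c ∈ B}
  one_mem' := by intro x; simp
  mul_mem' := by
    intro g h hg hh x
    rw [hh x, hg]
    have : (g : F) * ((h : F) * (x - c) + c - c) + c = ((g * h : Fˣ) : F) * (x - c) + c := by
      push_cast; ring
    rw [this]
  inv_mem' := by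
    intro g hg x
    rw [hg (((g⁻¹ : Fˣ) : F) * (x - c) + c)]
    have : (g : F) * (((g⁻¹ : Fˣ) : F) * (x - c) + c - c) + c = x := by
      have h0 : (g : F) ≠ 0 := g.ne_zero
      rw [Units.val_inv_eq_inv_val]
      field_simp
      ring
    rw [this]

lemma mem_mu {B : Finset F} {c : F} {z : Fˣ} :
    z ∈ mu B c ↔ ∀ x, x ∈ B ↔ (z : F) * (x - c) + c ∈ B := Iff.rfl

lemma card_mu_dvd (B : Finset F) (c : F) : Nat.card (mu B c) ∣ Fintype.card F - 1 := by
  have h1 := Subgroup.card_subgroup_dvd_card (mu B c)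
  rwa [Nat.card_eq_fintype_card (α := Fˣ), Fintype.card_units] at h1

lemma mu_pow {B : Finset F} {c : F} {z : Fˣ} (hz : z ∈ mu B c) :
    (z : F) ^ (Nat.card (mu B c)) = 1 := by
  have h1 : (⟨z, hz⟩ : ↥(mu B c)) ^ Nat.card (mu B c) = 1 := pow_card_eq_one'
  have h2 := congrArg Subtype.val h1
  rw [SubgroupClass.coe_pow, OneMemClass.coe_one] at h2
  have h3 := congrArg Units.val h2
  rwa [Units.val_pow_eq_pow_val, Units.val_one] at h3

/-- The subgroup of multipliers is a group of roots of unity. -/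
lemma mu_eq (B : Finset F) (c : F) (z : Fˣ) :
    z ∈ mu B c ↔ (z : F) ^ (Nat.card (mu B c)) = 1 := by
  classical
  constructor
  · exact mu_pow
  · intro hz
    have hsub : ((univ : Finset ↥(mu B c)).image (fun t : ↥(mu B c) => ((t : Fˣ) : F))) ⊆
        U F (Nat.card (mu B c)) := by
      intro w hw
      rw [mem_image] at hw
      obtain ⟨t, -, rfl⟩ := hw
      rw [U, mem_filter]
      exact ⟨mem_univ _, mu_pow t.2⟩
    have hcard : (U F (Nat.card (mu B c))).card ≤
        ((univ : Finset ↥(mu B c)).image (fun t : ↥(mu B c) => ((t : Fˣ) : F))).card := by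
      rw [card_U (card_mu_dvd B c), card_image_of_injective, card_univ, Nat.card_eq_fintype_card]
      intro s t hst
      simp only at hst
      exact Subtype.ext (Units.ext hst)
    have heq := eq_of_subset_of_card_le hsub hcard
    have h3 : (z : F) ∈ U F (Nat.card (mu B c)) := by
      rw [U, mem_filter]; exact ⟨mem_univ _, hz⟩
    rw [← heq, mem_image] at h3
    obtain ⟨t, -, ht⟩ := h3
    have h4 : (t : Fˣ) = z := Units.ext ht
    rw [← h4]
    exact t.2

lemma ok_mu {B : Finset F} {c : F} {H : AddSubgroup F} (h1 : H ≤ tr B) (h2 : tr B ≤ H) :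
    Ok (Nat.card (mu B c)) H := by
  refine ⟨card_mu_dvd B c, ?_⟩
  intro z hz h hh
  have hpos := pos_of_dvd (card_mu_dvd B c)
  have hz0 : z ≠ 0 := by
    rintro rfl
    rw [zero_pow hpos.ne'] at hz
    exact zero_ne_one hz
  have hzm : Units.mk0 z hz0 ∈ mu B c := by
    rw [mu_eq]; exact hz
  have hzi := (mu B c).inv_mem hzm
  rw [mem_mu] at hzm hzi
  apply h2
  intro x
  have hhB := h1 hh
  rw [hzi x, hhB, hzm]
  have h3 : ((Units.mk0 z hz0 : Fˣ) : F) * ((((Units.mk0 z hz0)⁻¹ : Fˣ) : F) * (x - c) + c + h - c)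
      + c = x + z * h := by
    rw [Units.val_inv_eq_inv_val, Units.val_mk0]
    field_simp
    ring
  rw [h3]

lemma sat_mu {B : Finset F} {c : F} {H : AddSubgroup F} (h1 : H ≤ tr B) :
    Sat (Nat.card (mu B c)) H c B := by
  apply sat_of _ h1
  intro z hz x hx
  have hpos := pos_of_dvd (card_mu_dvd B c)
  have hz0 : z ≠ 0 := by
    rintro rfl
    rw [zero_pow hpos.ne'] at hz
    exact zero_ne_one hz
  have hzm : Units.mk0 z hz0 ∈ mu B c := by
    rw [mu_eq]; exact hz
  exact (hzm x).1 hx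

/-- The bad sets, first description. `hbad`: the map `x ↦ a x + b` preserves `B`. -/
lemma bad_cases {d : ℕ} {H : AddSubgroup F} (hS : Ok d H) {B : Finset F}
    (hB : Sat d H 0 B) {a b : F} (ha : a ≠ 0) (hab : ∀ x, x ∈ B ↔ a * x + b ∈ B)
    (hnot : ¬ (a ^ d = 1 ∧ b ∈ H)) :
    (∃ h ∈ tr B, h ∉ H) ∨ (∃ D c, Ok D H ∧ Sat D H c B ∧ d ∣ D ∧ d < D ∧ (d ≠ 1 → c = 0)) := by
  by_cases hex : ∃ h ∈ tr B, h ∉ H
  · exact Or.inl hex
  right
  push Not at hex
  have hle : tr B ≤ H := hex
  have hge := le_tr hS hB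
  have had : a ^ d ≠ 1 := by
    intro had
    apply hnot
    refine ⟨had, hle ?_⟩
    intro x
    have hai : (a⁻¹) ^ d = 1 := by rw [inv_pow, had, inv_one]
    rw [mul_iff hS hB hai x, hab]
    have : a * (a⁻¹ * x) + b = x + b := by field_simp
    rw [this]
  -- it is enough to find a centre
  have main : ∀ b c : F, (∀ x, x ∈ B ↔ a * x + b ∈ B) → (d ≠ 1 → c = 0) → a * c + b = c →
      (∃ D c, Ok D H ∧ Sat D H c B ∧ d ∣ D ∧ d < D ∧ (d ≠ 1 → c = 0)) := by
    intro b c hab hc hfix
    have hamu : Units.mk0 a ha ∈ mu B c := by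
      intro x
      rw [hab x]
      have : a * x + b = ((Units.mk0 a ha : Fˣ) : F) * (x - c) + c := by
        rw [Units.val_mk0]
        linear_combination hfix
      rw [this]
    have hdvd : d ∣ Nat.card (mu B c) := by
      obtain ⟨z, hz⟩ := exists_prim hS.dvd
      have hz0 := hS.ne_zero hz.pow_eq_one
      have hzm : Units.mk0 z hz0 ∈ mu B c := by
        intro x
        by_cases hd : d = 1
        · have hz1 : z = 1 := by
            have := hz.pow_eq_one
            rwa [hd, pow_one] at this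
          rw [Units.val_mk0, hz1]; simp
        · rw [hc hd, Units.val_mk0, sub_zero, add_zero]
          exact mul_iff hS hB hz.pow_eq_one x
      have h1 : z ^ Nat.card (mu B c) = 1 := (mu_eq B c (Units.mk0 z hz0)).1 hzm
      exact hz.dvd_of_pow_eq_one _ h1
    refine ⟨Nat.card (mu B c), c, ok_mu hge hle, sat_mu hge, hdvd, ?_, hc⟩
    have hpos := pos_of_dvd (card_mu_dvd B c)
    rcases Nat.lt_or_ge d (Nat.card (mu B c)) with h | h
    · exact h
    · exfalso
      have h2 := Nat.le_of_dvd hpos hdvd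
      have h3 : Nat.card (mu B c) = d := le_antisymm h h2
      have h4 := (mu_eq B c _).1 hamu
      rw [h3] at h4
      exact had h4
  by_cases hd : d = 1
  · have ha1 : a ≠ 1 := by rw [hd, pow_one] at had; exact had
    have h1a : (1 - a) ≠ 0 := sub_ne_zero.2 (Ne.symm ha1)
    refine main b (b / (1 - a)) hab (fun h => absurd hd h) ?_
    field_simp
    ring
  · -- `b ∈ H`
    obtain ⟨z, hz⟩ := exists_prim hS.dvd
    have hz1 : z ≠ 1 := by
      intro h
      rw [h] at hz
      have := hz.dvd_of_pow_eq_one 1 (one_pow 1)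
      exact hd (Nat.dvd_one.1 this)
    have hzd := hz.pow_eq_one
    have hz0 := hS.ne_zero hzd
    have hbH : (1 - z) * b ∈ H := by
      apply hle
      intro x
      -- x ∈ B ↔ z⁻¹ x ∈ B ; y = (z⁻¹ x - b)/a ...
      have hzi : (z⁻¹) ^ d = 1 := by rw [inv_pow, hzd, inv_one]
      have e1 : a * ((z⁻¹ * x - b) / a) + b = z⁻¹ * x := by field_simp; ring
      have e2 : a * (z * ((z⁻¹ * x - b) / a)) + b = x + (1 - z) * b := by field_simp; ring
      rw [mul_iff hS hB hzi x, ← e1, ← hab, mul_iff hS hB hzd, hab, e2]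
    have hb : b ∈ H := hS.cancel (z := 1) (w := z) (one_pow _) hzd (Ne.symm hz1) hbH
    -- then we may replace b by 0 ...
    have hab0 : ∀ x, x ∈ B ↔ a * x + 0 ∈ B := by
      intro x
      rw [hab x, add_zero]
      exact ((hge hb) (a * x)).symm
    exact main 0 0 hab0 (fun _ => rfl) (by ring)

end Pool.Agent.X135.AG
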