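import Pool.Agent.X135.AG.C

/-! The counting argument. -/

namespace Pool.Agent.X135.AG

open Finset

lemma union_bound {α : Type*} [DecidableEq α] (X : Finset α) (G : Finset (Finset α))
    (h1 : ∀ x ∈ X, ∃ A ∈ G, x ∈ A) (h2 : ∀ A ∈ G, A.card ^ 2 ≤ X.card) :
    X.card ≤ G.card ^ 2 := by
  have h3 : X ⊆ G.biUnion id := by
    intro x hx
    obtain ⟨A, hA, hxA⟩ := h1 x hx
    exact mem_biUnion.2 ⟨A, hA, hxA⟩
  have h4 : X.card ≤ ∑ A ∈ G, A.card := (card_le_card h3).trans card_biUnion_le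
  have h5 : ∑ A ∈ G, A.card ≤ G.card * Nat.sqrt X.card := by
    rw [← smul_eq_mul]
    apply sum_le_card_nsmul
    intro A hA
    rw [Nat.le_sqrt, ← sq]
    exact h2 A hA
  have h6 : Nat.sqrt X.card ^ 2 ≤ X.card := Nat.sqrt_le' _
  have h7 : X.card ≤ G.card * Nat.sqrt X.card := h4.trans h5
  rcases Nat.eq_zero_or_pos X.card with h0 | h0
  · rw [h0]; exact Nat.zero_le _
  · have h8 : X.card * X.card ≤ G.card ^ 2 * X.card := by
      calc X.card * X.card ≤ (G.card * Nat.sqrt X.card) * (G.card * Nat.sqrt X.card) :=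
            Nat.mul_le_mul h7 h7
        _ = G.card ^ 2 * (Nat.sqrt X.card ^ 2) := by ring
        _ ≤ G.card ^ 2 * X.card := Nat.mul_le_mul_left _ h6
    exact Nat.le_of_mul_le_mul_right h8 h0

lemma choose_mono_half {N j m : ℕ} (hjm : j ≤ m) (hm : 2 * m ≤ N) :
    N.choose j ≤ N.choose m := by
  induction m, hjm using Nat.le_induction with
  | base => exact le_rfl
  | succ m hm1 ih =>
    have h1 := ih (by omega)
    have h2 : N.choose m ≤ N.choose (m + 1) :=
      Nat.choose_le_succ_of_lt_half_left (by omega)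
    exact h1.trans h2

lemma num1 {N m : ℕ} (hm : 1 ≤ m) (hN : 2 * m + 1 ≤ N) : (m - 1) ^ 2 < N.choose m := by
  rcases Nat.lt_or_ge m 2 with h | h
  · have : m = 1 := by omega
    subst this
    rw [Nat.choose_one_right]
    simp; omega
  · have h1 : N.choose 2 ≤ N.choose m := choose_mono_half h (by omega)
    have h2 : N.descFactorial 2 = 2 * N.choose 2 := by
      rw [Nat.descFactorial_eq_factorial_mul_choose]; rfl
    obtain ⟨t, rfl⟩ : ∃ t, N = t + 2 := ⟨N - 2, by omega⟩
    have h3 : (t + 2).descFactorial 2 = (t + 1) * (t + 2) := by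
      simp [Nat.descFactorial]
    obtain ⟨u, rfl⟩ : ∃ u, m = u + 1 := ⟨m - 1, by omega⟩
    rw [Nat.add_sub_cancel]
    nlinarith

lemma num2 {N m : ℕ} (hm : 4 ≤ m) (hN : 2 * m + 1 ≤ N) (hN2 : 12 ≤ N) :
    (N + (m - 1)) ^ 2 < N.choose m := by
  have h1 : N.choose 4 ≤ N.choose m := choose_mono_half hm (by omega)
  have h2 : N.descFactorial 4 = 24 * N.choose 4 := by
    rw [Nat.descFactorial_eq_factorial_mul_choose]; rfl
  obtain ⟨t, rfl⟩ : ∃ t, N = t + 12 := ⟨N - 12, by omega⟩
  have h3 : (t + 12).descFactorial 4 = (t + 9) * ((t + 10) * ((t + 11) * (t + 12))) := by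
    simp [Nat.descFactorial]
  have h4 : 2 * (t + 12 + (m - 1)) ≤ 3 * (t + 11) := by omega
  have h5 : (2 * (t + 12 + (m - 1))) ^ 2 ≤ (3 * (t + 11)) ^ 2 := Nat.pow_le_pow_left h4 2
  nlinarith [Nat.zero_le t, Nat.zero_le (t ^ 2), Nat.zero_le (t ^ 3), Nat.zero_le (t ^ 4)]

lemma num3 {N : ℕ} (hN : 9 ≤ N) : N ^ 2 < N.choose 3 := by
  have h2 : N.descFactorial 3 = 6 * N.choose 3 := by
    rw [Nat.descFactorial_eq_factorial_mul_choose]; rfl
  obtain ⟨t, rfl⟩ : ∃ t, N = t + 9 := ⟨N - 9, by omega⟩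
  have h3 : (t + 9).descFactorial 3 = (t + 7) * ((t + 8) * (t + 9)) := by
    simp [Nat.descFactorial]
  nlinarith [Nat.zero_le t, Nat.zero_le (t ^ 2), Nat.zero_le (t ^ 3)]

lemma num5 {N W y : ℕ} (hN : 32 ≤ N) (hy : 5 ≤ y) (hyN : 2 * y ≤ N)
    (hW : 4 * W ≤ N * (N + 2)) : W ^ 2 < N.choose y := by
  have h1 : N.choose 5 ≤ N.choose y := choose_mono_half hy hyN
  have h2 : N.descFactorial 5 = 120 * N.choose 5 := by
    rw [Nat.descFactorial_eq_factorial_mul_choose]; rfl
  obtain ⟨t, rfl⟩ : ∃ t, N = t + 32 := ⟨N - 32, by omega⟩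
  have h3 : (t + 32).descFactorial 5 =
      (t + 28) * ((t + 29) * ((t + 30) * ((t + 31) * (t + 32)))) := by
    simp [Nat.descFactorial]
  have h5 : (4 * W) ^ 2 ≤ ((t + 32) * (t + 34)) ^ 2 := Nat.pow_le_pow_left hW 2
  have h6 : 120 * ((t + 32) * (t + 34)) ^ 2 <
      16 * ((t + 28) * ((t + 29) * ((t + 30) * ((t + 31) * (t + 32))))) := by
    ring_nf
    have := Nat.zero_le t
    have := Nat.zero_le (t ^ 2)
    have := Nat.zero_le (t ^ 3)
    have := Nat.zero_le (t ^ 4)
    have := Nat.zero_le (t ^ 5)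
    omega
  have h7 : 16 * (120 * W ^ 2) < 16 * (120 * (t + 32).choose y) := by
    calc 16 * (120 * W ^ 2) = 120 * (4 * W) ^ 2 := by ring
      _ ≤ 120 * ((t + 32) * (t + 34)) ^ 2 := Nat.mul_le_mul_left _ h5
      _ < 16 * ((t + 28) * ((t + 29) * ((t + 30) * ((t + 31) * (t + 32))))) := h6
      _ = 16 * (120 * (t + 32).choose 5) := by rw [← h3, h2]
      _ ≤ 16 * (120 * (t + 32).choose y) := by omega
  omega

/-- The number of admissible orders `D`. -/
lemma card_R {N y : ℕ} (hN : Even N) (hN0 : 0 < N) :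
    2 * ((Icc 2 y).filter (fun D => D ∣ N - 1)).card ≤ y - 1 := by
  have h1 : ((Icc 2 y).filter (fun D => D ∣ N - 1)) ⊆
      (Icc 1 ((y - 1) / 2)).image (fun j => 2 * j + 1) := by
    intro D hD
    rw [mem_filter, mem_Icc] at hD
    obtain ⟨⟨h2, h3⟩, h4⟩ := hD
    have hodd : Odd D := by
      rcases Nat.even_or_odd D with he | ho
      · exfalso
        have h5 : 2 ∣ N - 1 := (even_iff_two_dvd.1 he).trans h4
        have h6 : 2 ∣ N := even_iff_two_dvd.1 hN
        omega
      · exact ho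
    obtain ⟨j, hj⟩ := hodd
    rw [mem_image]
    exact ⟨j, by rw [mem_Icc]; omega, hj.symm⟩
  have h2 := card_le_card h1
  have h3 := h2.trans card_image_le
  rw [Nat.card_Icc] at h3
  omega

lemma num_one {N y W : ℕ} (a : ℕ) (hNa : N = 2 ^ a) (hy3 : 3 ≤ y) (hyN : 2 * y ≤ N)
    (hpow : ∀ j, y ≠ 2 ^ j)
    (hW : W ≤ (if Even y then N else 0) + N * ((Icc 2 y).filter (fun D => D ∣ N - 1)).card) :
    W ^ 2 < N.choose y := by
  have hy4 : y ≠ 4 := hpow 2
  have hy8 : y ≠ 8 := hpow 3
  have ha : 3 ≤ a := by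
    by_contra hcon
    have : a = 0 ∨ a = 1 ∨ a = 2 := by omega
    rcases this with rfl | rfl | rfl <;> norm_num at hNa <;> omega
  rcases Nat.lt_or_ge a 5 with h | h
  · have h34 : a = 3 ∨ a = 4 := by omega
    rcases h34 with rfl | rfl
    · norm_num at hNa
      subst hNa
      have hy : y = 3 := by omega
      subst hy
      have h1 : ((Icc 2 3).filter (fun D => D ∣ 8 - 1)).card = 0 := by decide
      have h2 : ¬ Even 3 := by decide
      rw [h1, if_neg h2] at hW
      have : W = 0 := by omega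
      subst this
      decide
    · norm_num at hNa
      subst hNa
      have hy : y = 3 ∨ y = 5 ∨ y = 6 ∨ y = 7 := by omega
      rcases hy with rfl | rfl | rfl | rfl
      · have h1 : ((Icc 2 3).filter (fun D => D ∣ 16 - 1)).card = 1 := by decide
        have h2 : ¬ Even 3 := by decide
        rw [h1, if_neg h2] at hW
        have h3 : Nat.choose 16 3 = 560 := by decide
        rw [h3]; nlinarith
      · have h1 : ((Icc 2 5).filter (fun D => D ∣ 16 - 1)).card = 2 := by decide
        have h2 : ¬ Even 5 := by decide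
        rw [h1, if_neg h2] at hW
        have h3 : Nat.choose 16 5 = 4368 := by decide
        rw [h3]; nlinarith
      · have h1 : ((Icc 2 6).filter (fun D => D ∣ 16 - 1)).card = 2 := by decide
        have h2 : Even 6 := by decide
        rw [h1, if_pos h2] at hW
        have h3 : Nat.choose 16 6 = 8008 := by decide
        rw [h3]; nlinarith
      · have h1 : ((Icc 2 7).filter (fun D => D ∣ 16 - 1)).card = 2 := by decide
        have h2 : ¬ Even 7 := by decide
        rw [h1, if_neg h2] at hW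
        have h3 : Nat.choose 16 7 = 11440 := by decide
        rw [h3]; nlinarith
  · have hN32 : 32 ≤ N := by
      rw [hNa]
      calc 32 = 2 ^ 5 := by norm_num
        _ ≤ 2 ^ a := Nat.pow_le_pow_right (by norm_num) h
    have hNev : Even N := by
      rw [hNa]; exact (Nat.even_pow.2 ⟨even_two, by omega⟩)
    have hR := card_R (N := N) (y := y) hNev (by omega)
    set R := ((Icc 2 y).filter (fun D => D ∣ N - 1)).card
    rcases Nat.lt_or_ge y 5 with h5 | h5
    · have hy : y = 3 := by omega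
      subst hy
      have h2 : ¬ Even 3 := by decide
      rw [if_neg h2, zero_add] at hW
      have hR1 : R ≤ 1 := by omega
      have h3 : W ≤ N := hW.trans (by nlinarith)
      exact (Nat.pow_le_pow_left h3 2).trans_lt (num3 (by omega))
    · apply num5 hN32 h5 hyN
      have h6 : (if Even y then N else 0) ≤ N := by split_ifs <;> omega
      have h7 : 4 * W ≤ 4 * N + 2 * (N * (2 * R)) := by
        calc 4 * W ≤ 4 * (N + N * R) := Nat.mul_le_mul_left _ (hW.trans (by omega))
          _ = 4 * N + 2 * (N * (2 * R)) := by ring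
      have h8 : N * (2 * R) ≤ N * (y - 1) := Nat.mul_le_mul_left _ hR
      have h9 : 2 * (N * (y - 1)) = N * (2 * (y - 1)) := by ring
      have h10 : N * (2 * (y - 1)) ≤ N * (N - 2) := Nat.mul_le_mul_left _ (by omega)
      have h11 : N * (N + 2) = 4 * N + N * (N - 2) := by
        obtain ⟨t, rfl⟩ : ∃ t, N = t + 2 := ⟨N - 2, by omega⟩
        rw [Nat.add_sub_cancel]; ring
      omega

end Pool.Agent.X135.AG
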