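import Pool.Agent.X135.AG.D

/-! The main theorem: subsets with a given exact stabilizer. -/

namespace Pool.Agent.X135.AG

open Finset

variable {F : Type*} [Field F] [Fintype F] [DecidableEq F]

lemma exists_pow [CharP F 2] : ∃ n : ℕ, Fintype.card F = 2 ^ n := by
  obtain ⟨n, -, hn⟩ := FiniteField.card F 2
  exact ⟨n, hn⟩

lemma exists_pow_sub [CharP F 2] (H : AddSubgroup F) : ∃ n : ℕ, Nat.card H = 2 ^ n := by
  obtain ⟨n, hn⟩ := exists_pow (F := F)
  have h1 := AddSubgroup.card_addSubgroup_dvd_card H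
  rw [Nat.card_eq_fintype_card (α := F), hn] at h1
  obtain ⟨j, -, hj⟩ := (Nat.dvd_prime_pow Nat.prime_two).1 h1
  exact ⟨j, hj⟩

/-- `F` is a disjoint union of orbits, case `D ≠ 1`. -/
lemma Ok.card_field {D : ℕ} {H : AddSubgroup F} (h : Ok D H) (c : F) (hD : D ≠ 1) :
    Fintype.card F = Nat.card H * (1 + (h.reps c).card * D) := by
  rw [h.card_reps c, Ok.card_E hD]
  ring

lemma Ok.card_field_one {H : AddSubgroup F} (h : Ok 1 H) (c : F) :
    Fintype.card F = (h.reps c).card * Nat.card H := by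
  have h1 := h.card_reps c
  have hE : E 1 H c = ∅ := by simp [E]
  rw [hE, card_empty, zero_add, one_mul] at h1
  exact h1

/-- The size of a union of orbits. -/
lemma Ok.card_sat {D : ℕ} {H : AddSubgroup F} {c : F} (h : Ok D H) (hD : D ≠ 1) {B : Finset F}
    (hB : Sat D H c B) : ∃ n e : ℕ, e ≤ 1 ∧ B.card = Nat.card H * (e + n * D) := by
  have h1 := h.card_eq hB
  set n := ((B \ E D H c).image (h.rep c)).card
  rcases inter_E hB with h2 | h2
  · refine ⟨n, 0, by norm_num, ?_⟩
    rw [h2, card_empty, zero_add] at h1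
    rw [h1]
    ring
  · refine ⟨n, 1, le_rfl, ?_⟩
    rw [h2, Ok.card_E hD] at h1
    rw [h1]
    ring

/-- The bad sets, final description. -/
lemma bad_cover {d : ℕ} {H : AddSubgroup F} (hS : Ok d H) {B : Finset F}
    (hB : Sat d H 0 B) {a b : F} (ha : a ≠ 0) (hab : ∀ x, x ∈ B ↔ a * x + b ∈ B)
    (hnot : ¬ (a ^ d = 1 ∧ b ∈ H)) :
    (∃ r ∈ hS.reps 0, r ∉ H ∧ Sat d (Hr d H r) 0 B) ∨
    (∃ D c, Ok D H ∧ Sat D H c B ∧ d ∣ D ∧ d < D ∧ (d ≠ 1 → c = 0) ∧
      (d = 1 → c ∈ hS.reps 0)) := by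
  rcases bad_cases hS hB ha hab hnot with ⟨h, hh, hhH⟩ | ⟨D, c, hT, hD, hdvd, hlt, hc⟩
  · left
    have hrel := hS.rel_rep 0 h
    have hE : h ∉ E d H 0 := by
      rw [mem_E]
      rintro ⟨-, h1⟩
      rw [sub_zero] at h1
      exact hhH h1
    refine ⟨hS.rep 0 h, ?_, ?_, ?_⟩
    · unfold Ok.reps
      exact mem_image_of_mem _ (mem_sdiff.2 ⟨mem_univ _, hE⟩)
    · intro hr
      obtain ⟨z, hz, hm⟩ := hS.symm hrel
      apply hhH
      have h1 := H.add_mem hm (hS.stab z hz _ hr)
      have h2 : h - 0 - z * (hS.rep 0 h - 0) + z * hS.rep 0 h = h := by ring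
      rwa [h2] at h1
    · apply sat_Hr hS hB
      obtain ⟨z, hz, hm⟩ := hrel
      have h1 : z * h ∈ tr B := by
        apply Hr_le_tr hS hB hh
        exact AddSubgroup.subset_closure (Or.inr ⟨z, hz, rfl⟩)
      have h2 := (tr B).add_mem (le_tr hS hB hm) h1
      have h3 : hS.rep 0 h - 0 - z * (h - 0) + z * h = hS.rep 0 h := by ring
      rwa [h3] at h2
  · right
    by_cases hd : d = 1
    · subst hd
      obtain ⟨z, hz, hm⟩ := hS.rel_rep 0 c
      rw [pow_one] at hz
      subst hz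
      have h1 : hS.rep 0 c - c ∈ H := by
        have : hS.rep 0 c - 0 - 1 * (c - 0) = hS.rep 0 c - c := by ring
        rwa [this] at hm
      refine ⟨D, hS.rep 0 c, hT, ?_, hdvd, hlt, fun h => absurd rfl h, fun _ => ?_⟩
      · rintro x y ⟨z, hz, hm⟩ hx
        apply hD x y _ hx
        refine ⟨z, hz, ?_⟩
        have h2 := H.sub_mem h1 (hT.stab z hz _ h1)
        have h3 := H.add_mem hm h2
        have h4 : y - hS.rep 0 c - z * (x - hS.rep 0 c) +
          (hS.rep 0 c - c - z * (hS.rep 0 c - c)) = y - c - z * (x - c) := by ring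
        rwa [h4] at h3
      · unfold Ok.reps
        apply mem_image_of_mem
        rw [mem_sdiff, mem_E]
        exact ⟨mem_univ _, fun h => h.1 rfl⟩
    · exact ⟨D, c, hT, hD, hdvd, hlt, hc, fun h => absurd h hd⟩

lemma rel_le_Hr {d : ℕ} {H : AddSubgroup F} (r : F) (x y : F) (h : rel d H 0 x y) :
    rel d (Hr d H r) 0 x y := by
  obtain ⟨z, hz, hm⟩ := h
  exact ⟨z, hz, le_Hr d H r hm⟩

lemma rel_le_mul {d D : ℕ} {H : AddSubgroup F} (hT : Ok D H) (hdvd : d ∣ D) (x y : F)
    (h : rel d H 0 x y) : rel D H 0 x y := by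
  obtain ⟨z, hz, hm⟩ := h
  obtain ⟨e, rfl⟩ := hdvd
  exact ⟨z, by rw [pow_mul, hz, one_pow], hm⟩

lemma rel_le_one {D : ℕ} {H : AddSubgroup F} (c : F) (x y : F)
    (h : rel 1 H 0 x y) : rel D H c x y := by
  obtain ⟨z, hz, hm⟩ := h
  rw [pow_one] at hz
  subst hz
  refine ⟨1, one_pow _, ?_⟩
  have : y - c - 1 * (x - c) = y - 0 - 1 * (x - 0) := by ring
  rw [this]; exact hm

/-- A set that is in none of the bad families has the right stabilizer. -/
lemma exact_of {d : ℕ} {H : AddSubgroup F} (hS : Ok d H) {B : Finset F}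
    (hB : Sat d H 0 B)
    (h1 : ∀ r ∈ hS.reps 0, r ∉ H → ¬ Sat d (Hr d H r) 0 B)
    (h2 : ∀ D c, Ok D H → Sat D H c B → d ∣ D → d < D → (d ≠ 1 → c = 0) →
      (d = 1 → c ∈ hS.reps 0) → False) :
    ∀ a b : F, a ≠ 0 → ((∀ x, x ∈ B ↔ a * x + b ∈ B) ↔ (a ^ d = 1 ∧ b ∈ H)) := by
  intro a b ha
  constructor
  · intro hab
    by_contra hnot
    rcases bad_cover hS hB ha hab hnot with ⟨r, hr, hrH, hs⟩ | ⟨D, c, hT, hs, hdvd, hlt, hc, hc1⟩
    · exact h1 r hr hrH hs
    · exact h2 D c hT hs hdvd hlt hc hc1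
  · rintro ⟨had, hb⟩ x
    rw [mul_iff hS hB had x]
    exact le_tr hS hB hb (a * x)

/-- The case `d ≠ 1`. -/
theorem main_ne_one [CharP F 2] {d : ℕ} {H : AddSubgroup F} (hS : Ok d H) (hd : d ≠ 1)
    {k m : ℕ} (Q : Finset F) (hQ : Q = ∅ ∨ Q = E d H 0)
    (hk : k = Q.card + m * (d * Nat.card H)) (hk3 : 3 ≤ k) (hkq : 2 * k ≤ Fintype.card F)
    (hpow : ∀ j, k ≠ 2 ^ j) :
    ∃ B : Finset F, B.card = k ∧
      ∀ a b : F, a ≠ 0 → ((∀ x, x ∈ B ↔ a * x + b ∈ B) ↔ (a ^ d = 1 ∧ b ∈ H)) := by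
  classical
  obtain ⟨α, hα⟩ := exists_pow (F := F)
  obtain ⟨σ, hσ⟩ := exists_pow_sub H
  set s := Nat.card H with hs
  have hs0 : 0 < s := Ok.card_pos H
  have hdodd : Odd d := by
    have h1 := hS.dvd
    rw [hα] at h1
    rcases Nat.even_or_odd d with he | ho
    · exfalso
      have h2 : 2 ∣ 2 ^ α - 1 := (even_iff_two_dvd.1 he).trans h1
      have hα1 : α ≠ 0 := by
        rintro rfl
        have := two_le_card F
        rw [hα] at this; norm_num at this
      have h3 : 2 ∣ 2 ^ α := dvd_pow_self 2 hα1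
      have h4 : 0 < 2 ^ α := by positivity
      omega
    · exact ho
  have hdpos := hS.pos
  have hd3 : 3 ≤ d := by
    obtain ⟨t, ht⟩ := hdodd
    omega
  obtain ⟨e, he, hQe⟩ : ∃ e : ℕ, e ≤ 1 ∧ Q.card = s * e := by
    rcases hQ with h | h
    · exact ⟨0, by norm_num, by rw [h]; simp⟩
    · exact ⟨1, le_rfl, by rw [h, Ok.card_E hd]; simp [hs]⟩
  have hk2 : k = s * (e + m * d) := by rw [hk, hQe]; ring
  -- general consequences for an admissible pair
  have gen : ∀ H1 : AddSubgroup F, ∀ h1 : Ok d H1, ∀ n e1 : ℕ, e1 ≤ 1 →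
      k = Nat.card H1 * (e1 + n * d) → 1 ≤ n ∧ 2 * n + 1 ≤ (h1.reps 0).card := by
    intro H1 h1 n e1 he1 hkn
    obtain ⟨σ1, hσ1⟩ := exists_pow_sub H1
    have hpos1 : 0 < Nat.card H1 := Ok.card_pos H1
    have hn : 1 ≤ n := by
      by_contra hcon
      have hn0 : n = 0 := by omega
      subst hn0
      rw [zero_mul, add_zero] at hkn
      have : e1 = 0 ∨ e1 = 1 := by omega
      rcases this with rfl | rfl
      · rw [mul_zero] at hkn; omega
      · rw [mul_one, hσ1] at hkn
        exact hpow _ hkn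
    refine ⟨hn, ?_⟩
    have hq := h1.card_field 0 hd
    set N1 := (h1.reps 0).card
    have h2 : 2 * (e1 + n * d) ≤ 1 + N1 * d := by
      have h3 : Nat.card H1 * (2 * (e1 + n * d)) ≤ Nat.card H1 * (1 + N1 * d) := by
        rw [← hq]
        calc Nat.card H1 * (2 * (e1 + n * d)) = 2 * k := by rw [hkn]; ring
          _ ≤ _ := hkq
      exact Nat.le_of_mul_le_mul_left h3 hpos1
    have h4 : 2 * n ≤ N1 := by
      by_contra hcon
      have h5 : (N1 + 1) * d ≤ 2 * n * d := Nat.mul_le_mul_right _ (by omega)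
      nlinarith
    have hodd : Odd N1 := by
      rcases Nat.even_or_odd N1 with hev | ho
      · exfalso
        have h5 : (1 + N1 * d) ∣ 2 ^ α := ⟨Nat.card H1, by rw [← hα, hq]; ring⟩
        obtain ⟨j, -, hj⟩ := (Nat.dvd_prime_pow Nat.prime_two).1 h5
        have h6 : j ≠ 0 := by
          rintro rfl
          rw [pow_zero] at hj
          have h7 : N1 * d = 0 := by omega
          have h8 : 1 * d ≤ n * d := Nat.mul_le_mul_right _ hn
          nlinarith
        have h7 : 2 ∣ 2 ^ j := dvd_pow_self 2 h6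
        have h8 : 2 ∣ N1 * d := (even_iff_two_dvd.1 hev).mul_right d
        omega
      · exact ho
    obtain ⟨t, ht⟩ := hodd
    omega
  obtain ⟨hm1, hmN⟩ := gen H hS m e he hk2
  set N := (hS.reps 0).card with hN
  have hqS := hS.card_field 0 hd
  rw [← hs, ← hN] at hqS
  -- the bad families
  set T1 := (hS.reps 0).filter (fun r => r ∉ H ∧ (fam d (Hr d H r) 0 k).Nonempty) with hT1
  set R := (Icc 2 m).filter (fun r => Ok (d * r) H) with hR
  set G := T1.image (fun r => fam d (Hr d H r) 0 k) ∪ R.image (fun r => fam (d * r) H 0 k)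
    with hG
  by_contra hcon
  push Not at hcon
  have hcov : ∀ B ∈ fam d H 0 k, ∃ A ∈ G, B ∈ A := by
    intro B hB
    rw [mem_fam] at hB
    by_contra hno
    push Not at hno
    obtain ⟨a, b, ha, hab⟩ := hcon B hB.2
    have hex := exact_of hS hB.1 ?_ ?_ a b ha
    · rcases hab with ⟨h1, h2⟩ | ⟨h1, h2⟩
      · exact h2 (hex.1 h1).1 (hex.1 h1).2
      · obtain ⟨x, hx⟩ := h1
        have := hex.2 h2 x
        rcases hx with ⟨h3, h4⟩ | ⟨h3, h4⟩
        · exact h4 (this.1 h3)
        · exact h3 (this.2 h4)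
    · intro r hr hrH hsat
      have hmem : B ∈ fam d (Hr d H r) 0 k := mem_fam.2 ⟨hsat, hB.2⟩
      apply hno (fam d (Hr d H r) 0 k) _ hmem
      rw [hG, mem_union]
      left
      exact mem_image_of_mem _ (by rw [hT1, mem_filter]; exact ⟨hr, hrH, ⟨B, hmem⟩⟩)
    · intro D c hT hsat hdvd hlt hc _
      have hc0 := hc hd
      subst hc0
      obtain ⟨r, rfl⟩ := hdvd
      have hmem : B ∈ fam (d * r) H 0 k := mem_fam.2 ⟨hsat, hB.2⟩
      apply hno (fam (d * r) H 0 k) _ hmem
      rw [hG, mem_union]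
      right
      apply mem_image_of_mem (fun r => fam (d * r) H 0 k)
      rw [hR, mem_filter, mem_Icc]
      have hr2 : 2 ≤ r := by
        by_contra hcon2
        have : r = 0 ∨ r = 1 := by omega
        rcases this with rfl | rfl <;> omega
      refine ⟨⟨hr2, ?_⟩, hT⟩
      have hDne : d * r ≠ 1 := by
        intro h; have := Nat.eq_one_of_mul_eq_one_right h; omega
      obtain ⟨n, e1, he1, hBn⟩ := hT.card_sat hDne hsat
      rw [hB.2, ← hs, hk2] at hBn
      have h5 := Nat.eq_of_mul_eq_mul_left hs0 hBn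
      have hn1 : 1 ≤ n := by
        by_contra hcon3
        have hn0 : n = 0 := by omega
        subst hn0
        have h6 : 1 * d ≤ m * d := Nat.mul_le_mul_right _ hm1
        omega
      by_contra hcon4
      have h7 : (m + 1) * d ≤ r * d := Nat.mul_le_mul_right _ (by omega)
      have h8 : 1 * (d * r) ≤ n * (d * r) := Nat.mul_le_mul_right _ hn1
      nlinarith
  have hsq : ∀ A ∈ G, A.card ^ 2 ≤ (fam d H 0 k).card := by
    intro A hA
    rw [hG, mem_union, mem_image, mem_image] at hA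
    rcases hA with ⟨r, hr, rfl⟩ | ⟨r, hr, rfl⟩
    · rw [hT1, mem_filter] at hr
      apply sq_le hS (ok_Hr hS r) (rel_le_Hr r)
      · intro x hx
        rw [mem_E] at hx ⊢
        exact ⟨hx.1, le_Hr d H r hx.2⟩
      · exact Nat.mul_lt_mul_of_pos_left (card_lt_Hr hr.2.1) hdpos
    · rw [hR, mem_filter, mem_Icc] at hr
      apply sq_le hS hr.2 (rel_le_mul hr.2 (dvd_mul_right _ _))
      · intro x hx
        rw [mem_E] at hx ⊢
        refine ⟨?_, hx.2⟩
        intro h; have := Nat.eq_one_of_mul_eq_one_right h; omega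
      · have h1 : d * s < d * r * s := by
          have h2 : d * 2 ≤ d * r := Nat.mul_le_mul_left _ hr.1.1
          have h3 : 0 < d * s := Nat.mul_pos hdpos hs0
          have h4 : d * 2 * s ≤ d * r * s := Nat.mul_le_mul_right _ h2
          nlinarith
        exact h1
  have hXW := union_bound (fam d H 0 k) G hcov hsq
  have hlow := choose_le hS (a := 0) m Q hQ hk
  rw [← hN] at hlow
  have hRc : R.card ≤ m - 1 := by
    have h1 := card_filter_le (Icc 2 m) (fun r => Ok (d * r) H)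
    rw [Nat.card_Icc] at h1
    rw [hR]; omega
  have hGc : G.card ≤ T1.card + R.card := by
    rw [hG]
    exact (card_union_le _ _).trans (Nat.add_le_add card_image_le card_image_le)
  rcases T1.eq_empty_or_nonempty with h0 | ⟨r, hr⟩
  · rw [h0, card_empty, zero_add] at hGc
    have h1 := num1 hm1 hmN
    have h2 : G.card ^ 2 ≤ (m - 1) ^ 2 := Nat.pow_le_pow_left (hGc.trans hRc) 2
    omega
  · have hT1c : T1.card ≤ N := by rw [hT1, hN]; exact card_filter_le _ _
    have hm4N : 4 ≤ m ∧ 12 ≤ N := by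
      rw [hT1, mem_filter] at hr
      obtain ⟨hr1, hrH, ⟨B, hB⟩⟩ := hr
      rw [mem_fam] at hB
      have hok := ok_Hr hS r
      obtain ⟨n, e1, he1, hBn⟩ := hok.card_sat hd hB.1
      rw [hB.2] at hBn
      obtain ⟨hn1, hn2⟩ := gen _ hok n e1 he1 hBn
      have hq1 := hok.card_field 0 hd
      set N1 := (hok.reps 0).card
      have hcl := card_lt_Hr (d := d) hrH
      obtain ⟨σ1, hσ1⟩ := exists_pow_sub (Hr d H r)
      have hσσ : σ < σ1 := by
        rw [← hs, hσ, hσ1] at hcl
        exact (Nat.pow_lt_pow_iff_right (by norm_num)).1 hcl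
      obtain ⟨τ, rfl⟩ : ∃ τ, σ1 = σ + (τ + 1) := ⟨σ1 - σ - 1, by omega⟩
      set l := 2 ^ (τ + 1) with hl
      have hl2 : 2 ≤ l := by
        rw [hl, pow_succ]
        have : 0 < 2 ^ τ := by positivity
        omega
      have hs1 : Nat.card (Hr d H r) = s * l := by rw [hσ1, hσ, pow_add]
      -- l (1 + N1 d) = 1 + N d
      have e1' : 1 + N * d = l * (1 + N1 * d) := by
        have h3 : s * (1 + N * d) = s * (l * (1 + N1 * d)) := by
          rw [← hqS, hq1, hs1]; ring
        exact Nat.eq_of_mul_eq_mul_left hs0 h3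
      have hl4 : d + 1 ≤ l := by
        have h3 : d ∣ l - 1 := by
          have h31 : d ∣ l * N1 * d := Dvd.intro_left _ rfl
          refine (Nat.dvd_add_right h31).1 ?_
          refine ⟨N, ?_⟩
          have h4 : l * (1 + N1 * d) = l + l * N1 * d := by ring
          have h5 : d * N = N * d := mul_comm _ _
          omega
        have h4 := Nat.le_of_dvd (by omega) h3
        omega
      have h5 : e + m * d = l * (e1 + n * d) := by
        have h3 : s * (e + m * d) = s * (l * (e1 + n * d)) := by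
          rw [← hk2, hBn, hs1]; ring
        exact Nat.eq_of_mul_eq_mul_left hs0 h3
      constructor
      · -- m ≥ l n ≥ 4
        have h6 : l * 1 ≤ l * n := Nat.mul_le_mul_left _ hn1
        by_contra hcon5
        have h7 : (m + 1) * d ≤ (l * n) * d := Nat.mul_le_mul_right _ (by omega)
        nlinarith
      · have h6 : l * 3 ≤ l * N1 := Nat.mul_le_mul_left _ (by omega)
        by_contra hcon5
        have h7 : (N + 1) * d ≤ (l * N1) * d := Nat.mul_le_mul_right _ (by omega)
        nlinarith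
    have h1 := num2 hm4N.1 hmN hm4N.2
    have h2 : G.card ^ 2 ≤ (N + (m - 1)) ^ 2 :=
      Nat.pow_le_pow_left (hGc.trans (Nat.add_le_add hT1c hRc)) 2
    omega

end Pool.Agent.X135.AG
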