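import Pool.Agent.X135.AG.E

/-! The case `d = 1` and the main theorem. -/

namespace Pool.Agent.X135.AG

open Finset

variable {F : Type*} [Field F] [Fintype F] [DecidableEq F]

/-- The case `d = 1`. -/
theorem main_one [CharP F 2] {H : AddSubgroup F} (hS : Ok 1 H)
    {k y : ℕ} (hk : k = y * Nat.card H) (hk3 : 3 ≤ k) (hkq : 2 * k ≤ Fintype.card F)
    (hpow : ∀ j, k ≠ 2 ^ j) :
    ∃ B : Finset F, B.card = k ∧
      ∀ a b : F, a ≠ 0 → ((∀ x, x ∈ B ↔ a * x + b ∈ B) ↔ (a ^ 1 = 1 ∧ b ∈ H)) := by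
  classical
  obtain ⟨α, hα⟩ := exists_pow (F := F)
  obtain ⟨σ, hσ⟩ := exists_pow_sub H
  set s := Nat.card H with hs
  have hs0 : 0 < s := Ok.card_pos H
  set N := (hS.reps 0).card with hN
  have hq : Fintype.card F = N * s := hS.card_field_one 0
  have hpowy : ∀ j, y ≠ 2 ^ j := by
    intro j hj
    apply hpow (j + σ)
    rw [hk, hj, hσ, pow_add]
  have hy3 : 3 ≤ y := by
    by_contra hcon
    have h1 := hpowy 0
    have h2 := hpowy 1
    have : y = 0 := by
      rw [pow_zero] at h1; rw [pow_one] at h2; omega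
    subst this
    omega
  have hyN : 2 * y ≤ N := by
    have h1 : (2 * y) * s ≤ N * s := by
      rw [← hq]
      calc 2 * y * s = 2 * k := by rw [hk]; ring
        _ ≤ _ := hkq
    exact Nat.le_of_mul_le_mul_right h1 hs0
  obtain ⟨a0, -, hNa⟩ : ∃ a ≤ α, N = 2 ^ a := by
    have h5 : N ∣ 2 ^ α := ⟨s, by rw [← hα, hq]⟩
    exact (Nat.dvd_prime_pow Nat.prime_two).1 h5
  set T1 := (hS.reps 0).filter (fun r => r ∉ H ∧ (fam 1 (Hr 1 H r) 0 k).Nonempty) with hT1
  set R := (Icc 2 y).filter (fun D => D ∣ N - 1) with hR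
  set R2 := ((hS.reps 0) ×ˢ R).filter (fun p => Ok p.2 H) with hR2
  set G := T1.image (fun r => fam 1 (Hr 1 H r) 0 k) ∪ R2.image (fun p => fam p.2 H p.1 k)
    with hG
  by_contra hcon
  push Not at hcon
  have hcov : ∀ B ∈ fam 1 H 0 k, ∃ A ∈ G, B ∈ A := by
    intro B hB
    rw [mem_fam] at hB
    by_contra hno
    push Not at hno
    obtain ⟨a, b, ha, hab⟩ := hcon B hB.2
    have hex := exact_of hS hB.1 ?_ ?_ a b ha
    · rcases hab with ⟨h1, h2⟩ | ⟨h1, h2⟩
      · exact h2 (hex.1 h1).1 (hex.1 h1).2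
      · obtain ⟨x, hx⟩ := h1
        have := hex.2 h2 x
        rcases hx with ⟨h3, h4⟩ | ⟨h3, h4⟩
        · exact h4 (this.1 h3)
        · exact h3 (this.2 h4)
    · intro r hr hrH hsat
      have hmem : B ∈ fam 1 (Hr 1 H r) 0 k := mem_fam.2 ⟨hsat, hB.2⟩
      apply hno (fam 1 (Hr 1 H r) 0 k) _ hmem
      rw [hG, mem_union]
      left
      exact mem_image_of_mem _ (by rw [hT1, mem_filter]; exact ⟨hr, hrH, ⟨B, hmem⟩⟩)
    · intro D c hT hsat hdvd hlt _ hc
      have hc1 := hc rfl
      have hmem : B ∈ fam D H c k := mem_fam.2 ⟨hsat, hB.2⟩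
      apply hno (fam D H c k) _ hmem
      rw [hG, mem_union]
      right
      rw [mem_image]
      refine ⟨(c, D), ?_, rfl⟩
      rw [hR2, mem_filter, mem_product]
      refine ⟨⟨hc1, ?_⟩, hT⟩
      rw [hR, mem_filter, mem_Icc]
      have hDne : D ≠ 1 := by omega
      obtain ⟨n, e1, he1, hBn⟩ := hT.card_sat hDne hsat
      rw [hB.2, hk, ← hs, mul_comm] at hBn
      have h5 : y = e1 + n * D := Nat.eq_of_mul_eq_mul_left hs0 hBn
      have hn1 : 1 ≤ n := by
        by_contra hcon3
        have hn0 : n = 0 := by omega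
        subst hn0
        omega
      refine ⟨⟨by omega, ?_⟩, ?_⟩
      · have h6 : 1 * D ≤ n * D := Nat.mul_le_mul_right _ hn1
        omega
      · have h7 := hT.card_field 0 hDne
        rw [hq, ← hs, mul_comm] at h7
        have h8 := Nat.eq_of_mul_eq_mul_left hs0 h7
        refine ⟨(hT.reps 0).card, ?_⟩
        rw [h8, mul_comm D]
        omega
  have hsq : ∀ A ∈ G, A.card ^ 2 ≤ (fam 1 H 0 k).card := by
    intro A hA
    rw [hG, mem_union, mem_image, mem_image] at hA
    rcases hA with ⟨r, hr, rfl⟩ | ⟨⟨c, D⟩, hr, rfl⟩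
    · rw [hT1, mem_filter] at hr
      apply sq_le hS (ok_Hr hS r) (rel_le_Hr r)
      · intro x hx
        rw [mem_E] at hx
        exact absurd rfl hx.1
      · exact Nat.mul_lt_mul_of_pos_left (card_lt_Hr hr.2.1) one_pos
    · rw [hR2, mem_filter, mem_product, hR, mem_filter, mem_Icc] at hr
      simp only at hr ⊢
      apply sq_le hS hr.2 (rel_le_one c)
      · intro x hx
        rw [mem_E] at hx
        exact absurd rfl hx.1
      · have h1 : 1 * s < D * s := by
          have h2 : 2 * s ≤ D * s := Nat.mul_le_mul_right _ hr.1.2.1.1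
          omega
        exact h1
  have hXW := union_bound (fam 1 H 0 k) G hcov hsq
  have hlow := choose_le hS (a := 0) y ∅ (Or.inl rfl) (k := k) (by rw [hk]; simp [hs])
  rw [← hN] at hlow
  have hT1c : T1.card ≤ (if Even y then N else 0) := by
    split_ifs with hev
    · rw [hT1, hN]; exact card_filter_le _ _
    · rw [Nat.le_zero, card_eq_zero, hT1, filter_eq_empty_iff]
      rintro r hr ⟨hrH, ⟨B, hB⟩⟩
      apply hev
      rw [mem_fam] at hB
      have hok := ok_Hr hS r
      have h1 := hok.card_eq hB.1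
      have hE : E 1 (Hr 1 H r) (0 : F) = ∅ := by simp [E]
      rw [hE, inter_empty, card_empty, zero_add, hB.2, one_mul] at h1
      obtain ⟨σ1, hσ1⟩ := exists_pow_sub (Hr 1 H r)
      have hcl := card_lt_Hr (d := 1) hrH
      have hσσ : σ < σ1 := by
        rw [← hs, hσ, hσ1] at hcl
        exact (Nat.pow_lt_pow_iff_right (by norm_num)).1 hcl
      obtain ⟨τ, rfl⟩ : ∃ τ, σ1 = σ + (τ + 1) := ⟨σ1 - σ - 1, by omega⟩
      rw [hσ1, hk, pow_add, ← hσ, pow_succ] at h1
      set n := ((B \ ∅).image (hok.rep 0)).card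
      have h2 : s * y = s * (2 * (n * 2 ^ τ)) := by
        calc s * y = y * s := mul_comm _ _
          _ = n * (s * (2 ^ τ * 2)) := h1
          _ = _ := by ring
      have h3 := Nat.eq_of_mul_eq_mul_left hs0 h2
      exact ⟨n * 2 ^ τ, by omega⟩
  have hR2c : R2.card ≤ N * R.card := by
    calc R2.card ≤ ((hS.reps 0) ×ˢ R).card := card_filter_le _ _
      _ = N * R.card := by rw [card_product]
  have hGc : G.card ≤ T1.card + R2.card := by
    rw [hG]
    exact (card_union_le _ _).trans (Nat.add_le_add card_image_le card_image_le)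
  have hW : G.card ≤ (if Even y then N else 0) + N * R.card :=
    hGc.trans (Nat.add_le_add hT1c hR2c)
  have h1 := num_one a0 hNa hy3 hyN hpowy hW
  omega

/-- A union of orbits of the right size with exactly the given stabilizer. -/
theorem exists_exact [CharP F 2] {d : ℕ} {H : AddSubgroup F} (hd : d ∣ Fintype.card F - 1)
    (hH : ∀ z : F, z ^ d = 1 → ∀ h ∈ H, z * h ∈ H) {k : ℕ} (hk3 : 3 ≤ k)
    (hkq : 2 * k ≤ Fintype.card F)
    (hmod : k ≡ 0 [MOD d * Nat.card H] ∨ k ≡ Nat.card H [MOD d * Nat.card H])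
    (hpow : ∀ j, k ≠ 2 ^ j) :
    ∃ B : Finset F, B.card = k ∧
      ∀ a b : F, a ≠ 0 → ((∀ x, x ∈ B ↔ a * x + b ∈ B) ↔ (a ^ d = 1 ∧ b ∈ H)) := by
  have hS : Ok d H := ⟨hd, hH⟩
  have hs0 : 0 < Nat.card H := Ok.card_pos H
  by_cases h1 : d = 1
  · subst h1
    have h2 : Nat.card H ∣ k := by
      rcases hmod with h | h
      · rw [one_mul] at h
        exact (Nat.modEq_zero_iff_dvd.1 h)
      · rw [one_mul] at h
        have h3 : Nat.card H ≡ 0 [MOD Nat.card H] := by simp [Nat.ModEq]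
        exact (Nat.modEq_zero_iff_dvd.1 (h.trans h3))
    obtain ⟨y, hy⟩ := h2
    exact main_one hS (y := y) (by rw [hy, mul_comm]) hk3 hkq hpow
  · have hdpos := hS.pos
    rcases hmod with h | h
    · obtain ⟨m, hm⟩ := Nat.modEq_zero_iff_dvd.1 h
      exact main_ne_one hS h1 ∅ (Or.inl rfl) (m := m) (by rw [hm, card_empty]; ring) hk3 hkq hpow
    · have hlt : Nat.card H < d * Nat.card H := by
        have : 2 * Nat.card H ≤ d * Nat.card H := Nat.mul_le_mul_right _ (by omega)
        omega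
      have h2 : k % (d * Nat.card H) = Nat.card H := by
        have h3 : k % (d * Nat.card H) = Nat.card H % (d * Nat.card H) := h
        rw [h3, Nat.mod_eq_of_lt hlt]
      have h4 := Nat.mod_add_div k (d * Nat.card H)
      refine main_ne_one hS h1 (E d H 0) (Or.inr rfl) (m := k / (d * Nat.card H)) ?_ hk3 hkq hpow
      rw [Ok.card_E h1]
      rw [h2] at h4
      rw [mul_comm (k / _)]
      exact h4.symm

end Pool.Agent.X135.AG
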